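import Mathlib

/-!
# Local analysis for the twists by primes: parities
-/

set_option autoImplicit false
set_option linter.all false

namespace Pool.Agent.Zk94.BM

open Finset

section

variable {q : ℕ} [hq : Fact q.Prime]

/-- at most one of the values is small -/
theorem one_small {ι : Type} [Nonempty ι] {L : ι → ℚ_[q]} {A : ℝ} (h1 : ∀ k, ‖L k‖ ≤ A)
    (h2 : ∀ k l, k ≠ l → A ≤ max ‖L k‖ ‖L l‖) : ∃ i, ∀ k, k ≠ i → ‖L k‖ = A := by
  by_cases h : ∃ i, ‖L i‖ < A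
  · obtain ⟨i, hi⟩ := h
    refine ⟨i, fun k hk => le_antisymm (h1 k) ?_⟩
    rcases le_max_iff.1 (h2 k i hk) with h3 | h3
    · exact h3
    · exact absurd hi (not_lt.2 h3)
  · push Not at h
    exact ⟨Classical.arbitrary ι, fun k _ => le_antisymm (h1 k) (h k)⟩

theorem val_of_norm {a b : ℚ_[q]} (ha : a ≠ 0) (hb : b ≠ 0) (h : ‖a‖ = ‖b‖) :
    a.valuation = b.valuation := by
  rw [Padic.norm_eq_zpow_neg_valuation ha, Padic.norm_eq_zpow_neg_valuation hb] at h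
  have h1 : (1 : ℝ) < q := by exact_mod_cast hq.out.one_lt
  have h2 := zpow_right_injective₀ (by linarith) h1.ne' h
  linarith

theorem pv_prod (s : Finset (Fin 6)) {n : Fin 6 → ℤ} (hn : ∀ k, n k ≠ 0) :
    (padicValInt q (∏ k ∈ s, n k) : ℤ) = ∑ k ∈ s, (padicValInt q (n k) : ℤ) := by
  classical
  induction s using Finset.induction_on with
  | empty => simp
  | insert a s ha ih =>
    rw [prod_insert ha, sum_insert ha, padicValInt.mul (hn a) (prod_ne_zero_iff.2 fun k _ => hn k),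
      Nat.cast_add, ih]

/-- parity of the valuations -/
theorem par {L y : Fin 6 → ℚ_[q]} {t : ℚ_[q]} (ht : t ≠ 0) {i : Fin 6}
    (hL : ∀ k, k ≠ i → ‖L k‖ = ‖t‖) {n c : Fin 6 → ℤ} {d m : ℤ} (hn : ∀ k, n k ≠ 0)
    (hc : ∀ k, c k ≠ 0) (hd : d ≠ 0)
    (hy : ∀ k, (c k : ℚ_[q]) * L k = n k * y k ^ 2) (hdm : d * ∏ k, n k = m ^ 2) :
    (∀ k, k ≠ i → (2 : ℤ) ∣ padicValInt q (n k) + padicValInt q (c k) + t.valuation) ∧
    ((2 : ℤ) ∣ padicValInt q d + ∑ k, (padicValInt q (c k) : ℤ) →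
      (2 : ℤ) ∣ padicValInt q (n i) + padicValInt q (c i) + t.valuation) := by
  classical
  have h1 : ∀ k, k ≠ i → (2 : ℤ) ∣ padicValInt q (n k) + padicValInt q (c k) + t.valuation := by
    intro k hk
    have hL0 : L k ≠ 0 := by
      intro h
      have h3 := hL k hk
      rw [h, norm_zero] at h3
      exact ht (norm_eq_zero.1 h3.symm)
    have hcq : (c k : ℚ_[q]) ≠ 0 := Int.cast_ne_zero.2 (hc k)
    have hnq : (n k : ℚ_[q]) ≠ 0 := Int.cast_ne_zero.2 (hn k)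
    have hy0 : y k ≠ 0 := by
      intro h
      have h3 := hy k
      rw [h, zero_pow two_ne_zero, mul_zero] at h3
      exact mul_ne_zero hcq hL0 h3
    have h3 := congrArg Padic.valuation (hy k)
    rw [Padic.valuation_mul hcq hL0, Padic.valuation_mul hnq (pow_ne_zero 2 hy0),
      Padic.valuation_pow, Padic.valuation_intCast, Padic.valuation_intCast,
      val_of_norm hL0 ht (hL k hk)] at h3
    push_cast at h3
    exact ⟨padicValInt q (c k) + t.valuation - (y k).valuation, by linarith⟩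
  refine ⟨h1, fun h2 => ?_⟩
  have hm : m ≠ 0 := by
    rintro rfl
    rw [zero_pow two_ne_zero] at hdm
    exact mul_ne_zero hd (prod_ne_zero_iff.2 fun k _ => hn k) hdm
  have h3 : (padicValInt q d : ℤ) + ∑ k, (padicValInt q (n k) : ℤ) = 2 * padicValInt q m := by
    rw [← pv_prod (q := q) univ hn, ← Nat.cast_add, ← padicValInt.mul hd
      (prod_ne_zero_iff.2 fun k _ => hn k), hdm, pow_two, padicValInt.mul hm hm]
    push_cast
    ring
  have h4 : (2 : ℤ) ∣ ∑ k ∈ univ.erase i, ((padicValInt q (n k) : ℤ) + padicValInt q (c k) +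
      t.valuation) := Finset.dvd_sum fun k hk => h1 k (Finset.ne_of_mem_erase hk)
  have h5 := Finset.add_sum_erase univ (fun k => ((padicValInt q (n k) : ℤ) + padicValInt q (c k) +
      t.valuation)) (mem_univ i)
  have h6 : ∑ k : Fin 6, ((padicValInt q (n k) : ℤ) + padicValInt q (c k) + t.valuation) =
      ∑ k, (padicValInt q (n k) : ℤ) + ∑ k, (padicValInt q (c k) : ℤ) + 6 * t.valuation := by
    rw [sum_add_distrib, sum_add_distrib, sum_const, card_univ, Fintype.card_fin]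
    simp
  rw [h6] at h5
  obtain ⟨u, hu⟩ := h4
  obtain ⟨v, hv⟩ := h2
  rw [hu] at h5
  exact ⟨padicValInt q m + v + 3 * t.valuation - u - padicValInt q d, by linarith⟩

end

/-- the squarefree part -/
theorem sqf {N : ℤ} (hN : N ≠ 0) : ∃ s m : ℤ, m ≠ 0 ∧ Squarefree s ∧ N = s * m ^ 2 := by
  obtain ⟨a, b, hb, hab⟩ := Nat.sq_mul_squarefree N.natAbs
  have hb0 : b ≠ 0 := by
    rintro rfl
    rw [zero_pow two_ne_zero, zero_mul] at hb
    exact hN (Int.natAbs_eq_zero.1 hb.symm)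
  refine ⟨N.sign * a, b, by exact_mod_cast hb0, ?_, ?_⟩
  · rw [← Int.squarefree_natAbs, Int.natAbs_mul, Int.natAbs_sign_of_ne_zero hN, one_mul]
    simpa using hab
  · have h1 : N.sign * (N.natAbs : ℤ) = N := Int.sign_mul_natAbs _
    rw [← hb] at h1
    push_cast at h1
    linear_combination -h1

section

variable {q : ℕ} [hq : Fact q.Prime]

theorem not_dvd_of_even {s N m : ℤ} (hs : Squarefree s) (hm : m ≠ 0) (hN : N = s * m ^ 2)
    (h : (2 : ℤ) ∣ padicValInt q N) : ¬ (q : ℤ) ∣ s := by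
  intro hqs
  have hs0 : s ≠ 0 := hs.ne_zero
  have h1 : 1 ≤ padicValInt q s := by
    have h2 := (padicValInt_dvd_iff (p := q) 1 s).1 (by rwa [pow_one])
    exact h2.resolve_left hs0
  have h2 : ¬ 2 ≤ padicValInt q s := by
    intro h3
    have h4 := (padicValInt_dvd_iff (p := q) 2 s).2 (Or.inr h3)
    have h5 := hs (q : ℤ) (by rwa [← pow_two])
    have h6 := Int.isUnit_iff.1 h5
    have h7 := hq.out.two_le
    omega
  rw [hN, padicValInt.mul hs0 (pow_ne_zero 2 hm), pow_two, padicValInt.mul hm hm] at h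
  push_cast at h
  omega

theorem norm_one_of {n : ℤ} (h : ¬ (q : ℤ) ∣ n) : ‖(n : ℚ_[q])‖ = 1 := by
  refine le_antisymm (Padic.norm_int_le_one n) ?_
  by_contra h1
  rw [not_le] at h1
  exact h (Padic.norm_intCast_lt_one_iff.1 h1)

theorem exists_big {x w : ℚ_[q]} (h : x ≠ 0 ∨ w ≠ 0) : ∃ t : ℚ_[q], t ≠ 0 ∧ ‖t‖ = max ‖x‖ ‖w‖ := by
  rcases le_total ‖x‖ ‖w‖ with h1 | h1
  · refine ⟨w, ?_, (max_eq_right h1).symm⟩
    rintro rfl
    rw [norm_zero, norm_le_zero_iff] at h1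
    exact h.elim (fun h2 => h2 h1) fun h2 => h2 rfl
  · refine ⟨x, ?_, (max_eq_left h1).symm⟩
    rintro rfl
    rw [norm_zero, norm_le_zero_iff] at h1
    exact h.elim (fun h2 => h2 rfl) fun h2 => h2 h1

theorem sub_le_max (a b : ℚ_[q]) : ‖a - b‖ ≤ max ‖a‖ ‖b‖ := by
  have h := Padic.nonarchimedean a (-b)
  rwa [norm_neg, ← sub_eq_add_neg] at h

/-- linear forms `x - e w` -/
theorem forms_le (x w : ℚ_[q]) (e : ℤ) : ‖x - (e : ℚ_[q]) * w‖ ≤ max ‖x‖ ‖w‖ := by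
  refine (sub_le_max _ _).trans (max_le_max le_rfl ?_)
  rw [norm_mul]
  exact mul_le_of_le_one_left (norm_nonneg _) (Padic.norm_int_le_one e)

theorem forms_ge (x w : ℚ_[q]) (e e' : ℤ) (h : ¬ (q : ℤ) ∣ e' - e) :
    max ‖x‖ ‖w‖ ≤ max ‖x - (e : ℚ_[q]) * w‖ ‖x - (e' : ℚ_[q]) * w‖ := by
  have h1 : ‖w‖ ≤ max ‖x - (e : ℚ_[q]) * w‖ ‖x - (e' : ℚ_[q]) * w‖ := by
    have h2 : ((e' - e : ℤ) : ℚ_[q]) * w = (x - (e : ℚ_[q]) * w) - (x - (e' : ℚ_[q]) * w) := by
      push_cast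
      ring
    have h3 := sub_le_max (x - (e : ℚ_[q]) * w) (x - (e' : ℚ_[q]) * w)
    rwa [← h2, norm_mul, norm_one_of h, one_mul] at h3
  refine max_le ?_ h1
  have h2 : x = (x - (e : ℚ_[q]) * w) + (e : ℚ_[q]) * w := by ring
  calc ‖x‖ = ‖(x - (e : ℚ_[q]) * w) + (e : ℚ_[q]) * w‖ := by rw [← h2]
    _ ≤ max ‖x - (e : ℚ_[q]) * w‖ ‖(e : ℚ_[q]) * w‖ := Padic.nonarchimedean _ _
    _ ≤ max ‖x - (e : ℚ_[q]) * w‖ ‖x - (e' : ℚ_[q]) * w‖ := by
      refine max_le (le_max_left _ _) ?_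
      rw [norm_mul]
      exact (mul_le_of_le_one_left (norm_nonneg _) (Padic.norm_int_le_one e)).trans h1

/-- approximation by integers -/
theorem exists_int {g : ℚ_[q]} (h : ‖g‖ ≤ 1) : ∃ a : ℤ, ‖g - a‖ < 1 := by
  obtain ⟨X, hX⟩ : ∃ X : ℤ_[q], (X : ℚ_[q]) = g := ⟨⟨g, h⟩, rfl⟩
  have h1 := PadicInt.norm_sub_zmodRepr_lt_one X
  refine ⟨((PadicInt.zmodRepr X : ℕ) : ℤ), ?_⟩
  rw [PadicInt.norm_def] at h1
  push_cast at h1 ⊢
  rwa [hX] at h1

end

end Pool.Agent.Zk94.BM
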