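import Mathlib
import Pool.Agent.Zk94.PT.Cls
import Pool.Agent.Zk94.BM.Loc

/-!
# Local analysis for the twists by primes: the primes
-/

set_option autoImplicit false
set_option linter.all false

namespace Pool.Agent.Zk94.BM

open Finset Pool.Agent.Zk94.PT

theorem bp_dif (q : ℕ) (hq : q.Prime) (h5 : 5 < q) (i k : Fin 6) (h : i ≠ k) :
    ¬ (q : ℤ) ∣ bp i - bp k := by
  have h1 : (bp i - bp k).natAbs ∣ 2 ^ 5 * 3 ^ 5 * 5 ^ 5 := by revert i k; decide +kernel
  intro h2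
  have h3 : q ∣ (bp i - bp k).natAbs := Int.natCast_dvd.1 h2
  have h4 := h3.trans h1
  have h6 : ∀ r : ℕ, r.Prime → q ∣ r ^ 5 → q = r := fun r hr h =>
    (Nat.prime_dvd_prime_iff_eq hq hr).1 (hq.dvd_of_dvd_pow h)
  rcases (Nat.Prime.dvd_mul hq).1 h4 with h7 | h7
  · rcases (Nat.Prime.dvd_mul hq).1 h7 with h8 | h8
    · have := h6 2 Nat.prime_two h8; omega
    · have := h6 3 Nat.prime_three h8; omega
  · have := h6 5 Nat.prime_five h7; omega

/-- the covering given by `n` has a point -/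
def Pt (n : Fin 6 → ℤ) (F : Type) [Field F] : Prop :=
  ∃ x w : F, (x ≠ 0 ∨ w ≠ 0) ∧ ∀ k, ∃ y : F, x - (bp k : F) * w = (n k : F) * y ^ 2

section

variable {q : ℕ} [hq : Fact q.Prime] {n : Fin 6 → ℤ} {d m : ℤ}

theorem pv_mul {a b : ℤ} (ha : a ≠ 0) (hb : b ≠ 0) :
    (padicValInt q (a * b) : ℤ) = padicValInt q a + padicValInt q b := by
  rw [padicValInt.mul ha hb]
  push_cast
  rfl

/-- the primes of good reduction above 5 -/
theorem loc_good (h5 : 5 < q) (hn : ∀ k, n k ≠ 0) (hd : d ≠ 0) (hdm : d * ∏ k, n k = m ^ 2)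
    (hqd : ¬ (q : ℤ) ∣ d) (hpt : Pt n ℚ_[q]) (k l : Fin 6) :
    (2 : ℤ) ∣ padicValInt q (n k * n l) := by
  obtain ⟨x, w, hxw, hy⟩ := hpt
  choose y hy using hy
  obtain ⟨t, ht, hA⟩ := exists_big hxw
  obtain ⟨i, hi⟩ := one_small (L := fun k => x - (bp k : ℚ_[q]) * w) (A := ‖t‖)
    (fun k => by rw [hA]; exact forms_le x w (bp k))
    (fun k l hkl => by rw [hA]; exact forms_ge x w (bp k) (bp l) (bp_dif q hq.out h5 l k hkl.symm))
  obtain ⟨h1, h2⟩ := par (c := fun _ => 1) ht hi hn (fun _ => one_ne_zero) hd (y := y)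
    (fun k => by rw [Int.cast_one, one_mul]; exact hy k) hdm
  have hd1 : padicValInt q d = 0 := by
    rw [padicValInt, padicValNat.eq_zero_of_not_dvd]
    rwa [← Int.natCast_dvd]
  have h3 : ∀ k, (2 : ℤ) ∣ padicValInt q (n k) + padicValInt q 1 + t.valuation := by
    intro k
    by_cases hk : k = i
    · rw [hk]
      exact h2 (by rw [hd1]; simp)
    · exact h1 k hk
  rw [pv_mul (hn k) (hn l)]
  have h4 := h3 k
  have h5 := h3 l
  simp only [padicValInt.one] at h4 h5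
  omega

/-- the primes dividing `d` -/
theorem loc_bad (h5 : 5 < q) (hn : ∀ k, n k ≠ 0) (hd : d ≠ 0) (hdm : d * ∏ k, n k = m ^ 2)
    (hqd : padicValInt q d = 1) (hpt : Pt n ℚ_[q]) :
    ∃ i, ∀ k l, k ≠ i → l ≠ i → (2 : ℤ) ∣ padicValInt q (n k * n l) ∧
      ∀ s m' : ℤ, m' ≠ 0 → n k * n l = s * m' ^ 2 → 
        ∃ a : ℤ, (q : ℤ) ∣ s * ((bp i - bp k) * (bp i - bp l)) - a ^ 2 := by
  obtain ⟨x, w, hxw, hy⟩ := hpt
  choose y hy using hy
  obtain ⟨t, ht, hA⟩ := exists_big hxw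
  obtain ⟨i, hi⟩ := one_small (L := fun k => x - (bp k : ℚ_[q]) * w) (A := ‖t‖)
    (fun k => by rw [hA]; exact forms_le x w (bp k))
    (fun k l hkl => by rw [hA]; exact forms_ge x w (bp k) (bp l) (bp_dif q hq.out h5 l k hkl.symm))
  obtain ⟨h1, h2⟩ := par (c := fun _ => 1) ht hi hn (fun _ => one_ne_zero) hd (y := y)
    (fun k => by rw [Int.cast_one, one_mul]; exact hy k) hdm
  simp only [padicValInt.one] at h1 h2
  -- the form `i` is small
  have hsm : ‖x - (bp i : ℚ_[q]) * w‖ < ‖t‖ := by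
    by_contra hno
    have h3 : ‖x - (bp i : ℚ_[q]) * w‖ = ‖t‖ := le_antisymm
      (by rw [hA]; exact forms_le x w (bp i)) (not_lt.1 hno)
    have hjj : ∀ i : Fin 6, ∃ j : Fin 6, j ≠ i := by decide
    obtain ⟨j, hj⟩ := hjj i
    obtain ⟨h4, -⟩ := par (c := fun _ => 1) ht (i := j) (L := fun k => x - (bp k : ℚ_[q]) * w)
      (fun k hk => by
        by_cases hki : k = i
        · rw [hki]; exact h3
        · exact hi k hki) hn (fun _ => one_ne_zero) hd (y := y)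
      (fun k => by rw [Int.cast_one, one_mul]; exact hy k) hdm
    simp only [padicValInt.one] at h4
    have h5 : ∀ k, (2 : ℤ) ∣ padicValInt q (n k) + ((0 : ℕ) : ℤ) + t.valuation := by
      intro k
      by_cases hki : k = i
      · rw [hki]; exact h4 i (Ne.symm hj)
      · exact h1 k hki
    have hm : m ≠ 0 := by
      rintro rfl
      rw [zero_pow two_ne_zero] at hdm
      exact mul_ne_zero hd (prod_ne_zero_iff.2 fun k _ => hn k) hdm
    have h6 : (padicValInt q d : ℤ) + ∑ k, (padicValInt q (n k) : ℤ) = 2 * padicValInt q m := by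
      rw [← pv_prod (q := q) univ hn, ← pv_mul hd
        (prod_ne_zero_iff.2 fun k _ => hn k), hdm, pow_two, pv_mul hm hm]
      ring
    rw [hqd, Fin.sum_univ_six] at h6
    have a0 := h5 0
    have a1 := h5 1
    have a2 := h5 2
    have a3 := h5 3
    have a4 := h5 4
    have a5 := h5 5
    push_cast at h6
    omega
  -- `w` is big
  have hw0 : w ≠ 0 := by
    rintro rfl
    rw [mul_zero, sub_zero] at hsm
    rw [hA, norm_zero, max_eq_left (norm_nonneg x)] at hsm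
    exact lt_irrefl _ hsm
  have hwt : ‖w‖ = ‖t‖ := by
    apply le_antisymm
    · rw [hA]; exact le_max_right _ _
    · by_contra hno
      rw [not_le] at hno
      have hx : ‖x‖ ≤ max ‖x - (bp i : ℚ_[q]) * w‖ ‖(bp i : ℚ_[q]) * w‖ := by
        have := Padic.nonarchimedean (x - (bp i : ℚ_[q]) * w) ((bp i : ℚ_[q]) * w)
        rwa [sub_add_cancel] at this
      have h3 : ‖(bp i : ℚ_[q]) * w‖ ≤ ‖w‖ := by
        rw [norm_mul]
        exact mul_le_of_le_one_left (norm_nonneg _) (Padic.norm_int_le_one _)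
      have h4 : ‖x‖ < ‖t‖ := hx.trans_lt (max_lt hsm (h3.trans_lt hno))
      have h6 : max ‖x‖ ‖w‖ < ‖t‖ := max_lt h4 hno
      rw [← hA] at h6
      exact lt_irrefl _ h6
  have hw1 : 0 < ‖w‖ := norm_pos_iff.2 hw0
  refine ⟨i, fun k l hk hl => ⟨?_, fun s m' hm' hs => ?_⟩⟩
  · rw [pv_mul (hn k) (hn l)]
    have h3 := h1 k hk
    have h4 := h1 l hl
    omega
  · -- the value of `x / w`
    obtain ⟨X, hX⟩ : ∃ X, X = x / w := ⟨_, rfl⟩
    have hXi : ‖X - (bp i : ℚ_[q])‖ < 1 := by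
      have h3 : X - (bp i : ℚ_[q]) = (x - (bp i : ℚ_[q]) * w) / w := by
        rw [hX]
        field_simp
      rw [h3, norm_div, div_lt_one hw1, hwt]
      exact hsm
    have hX1 : ‖X‖ ≤ 1 := by
      have h3 := Padic.nonarchimedean (X - (bp i : ℚ_[q])) (bp i : ℚ_[q])
      rw [sub_add_cancel] at h3
      exact h3.trans (max_le hXi.le (Padic.norm_int_le_one _))
    have hXk : ∀ k, ‖X - (bp k : ℚ_[q])‖ ≤ 1 := fun k =>
      (sub_le_max _ _).trans (max_le hX1 (Padic.norm_int_le_one _))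
    obtain ⟨g, hg⟩ : ∃ g : ℚ_[q], g = (m' : ℚ_[q]) * (y k * y l) / w := ⟨_, rfl⟩
    have hs' : (n k : ℚ_[q]) * n l = s * (m' : ℚ_[q]) ^ 2 := by exact_mod_cast hs
    have hgG : (s : ℚ_[q]) * g ^ 2 = (X - (bp k : ℚ_[q])) * (X - (bp l : ℚ_[q])) := by
      have e1 : X - (bp k : ℚ_[q]) = (x - (bp k : ℚ_[q]) * w) / w := by
        rw [hX]; field_simp
      have e2 : X - (bp l : ℚ_[q]) = (x - (bp l : ℚ_[q]) * w) / w := by
        rw [hX]; field_simp
      rw [e1, e2, hy k, hy l, hg]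
      field_simp
      linear_combination (-(y k) ^ 2 * (y l) ^ 2) * hs'
    have hE : ‖(s : ℚ_[q]) * g ^ 2 - (((bp i - bp k) * (bp i - bp l) : ℤ) : ℚ_[q])‖ < 1 := by
      have e3 : (s : ℚ_[q]) * g ^ 2 - (((bp i - bp k) * (bp i - bp l) : ℤ) : ℚ_[q]) =
          (X - (bp i : ℚ_[q])) * ((X - (bp k : ℚ_[q])) + ((bp i - bp l : ℤ) : ℚ_[q])) := by
        rw [hgG]
        push_cast
        ring
      rw [e3, norm_mul]
      have h3 : ‖(X - (bp k : ℚ_[q])) + ((bp i - bp l : ℤ) : ℚ_[q])‖ ≤ 1 :=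
        (Padic.nonarchimedean _ _).trans (max_le (hXk k) (Padic.norm_int_le_one _))
      calc ‖X - (bp i : ℚ_[q])‖ * ‖(X - (bp k : ℚ_[q])) + ((bp i - bp l : ℤ) : ℚ_[q])‖ ≤
            ‖X - (bp i : ℚ_[q])‖ * 1 := mul_le_mul_of_nonneg_left h3 (norm_nonneg _)
        _ < 1 := by rw [mul_one]; exact hXi
    have hsg : ‖(s : ℚ_[q]) * g‖ ≤ 1 := by
      have h3 : ‖(s : ℚ_[q]) * g‖ ^ 2 ≤ 1 := by
        rw [← norm_pow]
        have e4 : ((s : ℚ_[q]) * g) ^ 2 = s * ((X - (bp k : ℚ_[q])) * (X - (bp l : ℚ_[q]))) := by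
          rw [← hgG]; ring
        rw [e4, norm_mul, norm_mul]
        exact mul_le_one₀ (Padic.norm_int_le_one _) (mul_nonneg (norm_nonneg _) (norm_nonneg _))
          (mul_le_one₀ (hXk k) (norm_nonneg _) (hXk l))
      by_contra hno
      rw [not_le] at hno
      nlinarith
    obtain ⟨a, ha⟩ := exists_int hsg
    refine ⟨a, ?_⟩
    rw [← Padic.norm_intCast_lt_one_iff]
    have e5 : ((s * ((bp i - bp k) * (bp i - bp l)) - a ^ 2 : ℤ) : ℚ_[q]) =
        (((s : ℚ_[q]) * g - a) * ((s : ℚ_[q]) * g + a)) -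
          s * ((s : ℚ_[q]) * g ^ 2 - (((bp i - bp k) * (bp i - bp l) : ℤ) : ℚ_[q])) := by
      push_cast
      ring
    rw [e5]
    refine (sub_le_max _ _).trans_lt (max_lt ?_ ?_)
    · rw [norm_mul]
      have h3 : ‖(s : ℚ_[q]) * g + a‖ ≤ 1 :=
        (Padic.nonarchimedean _ _).trans (max_le hsg (Padic.norm_int_le_one _))
      calc ‖(s : ℚ_[q]) * g - a‖ * ‖(s : ℚ_[q]) * g + a‖ ≤ ‖(s : ℚ_[q]) * g - a‖ * 1 :=
            mul_le_mul_of_nonneg_left h3 (norm_nonneg _)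
        _ < 1 := by rw [mul_one]; exact ha
    · rw [norm_mul]
      calc ‖(s : ℚ_[q])‖ * ‖(s : ℚ_[q]) * g ^ 2 - (((bp i - bp k) * (bp i - bp l) : ℤ) : ℚ_[q])‖ ≤
            1 * ‖(s : ℚ_[q]) * g ^ 2 - (((bp i - bp k) * (bp i - bp l) : ℤ) : ℚ_[q])‖ :=
            mul_le_mul_of_nonneg_right (Padic.norm_int_le_one _) (norm_nonneg _)
        _ < 1 := by rw [one_mul]; exact hE

end

end Pool.Agent.Zk94.BM
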