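import Mathlib
import Pool.Agent.Zk94.BM.Prm

/-!
# Local analysis for the twists by primes: the prime 5
-/

set_option autoImplicit false
set_option linter.all false

namespace Pool.Agent.Zk94.BM

open Finset Pool.Agent.Zk94.PT

instance f5 : Fact (Nat.Prime 5) := ⟨Nat.prime_five⟩

/-- the factors of the linear forms -/
def c5 : Fin 6 → ℤ := ![30, -6, -10, -15, -30, 30]

/-- the branch points in the coordinate `u` -/
def u5 : Fin 6 → ℤ := ![0, 3, 1, 0, -1, -3]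

/-- the linear forms in the coordinates `u`, `z` -/
noncomputable def L5 (u z : ℚ_[5]) (k : Fin 6) : ℚ_[5] := if k = 0 then z else u - (u5 k : ℚ_[5]) * z

theorem L5_eq (x w : ℚ_[5]) (k : Fin 6) :
    (c5 k : ℚ_[5]) * L5 (w - x / 15) (x / 30) k = x - (bp k : ℚ_[5]) * w := by
  have h30 : (30 : ℚ_[5]) ≠ 0 := by norm_num
  fin_cases k
  · simp [c5, L5, bp]
    field_simp
  all_goals
    simp [c5, L5, bp, u5]
    ring

theorem L5_le (u z : ℚ_[5]) (k : Fin 6) : ‖L5 u z k‖ ≤ max ‖u‖ ‖z‖ := by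
  unfold L5
  split_ifs
  · exact le_max_right _ _
  · exact forms_le u z (u5 k)

theorem u5_dif : ∀ k l : Fin 6, k ≠ 0 → l ≠ 0 → k ≠ l → ¬ (5 : ℤ) ∣ u5 l - u5 k := by decide

theorem L5_ge (u z : ℚ_[5]) (k l : Fin 6) (h : k ≠ l) : max ‖u‖ ‖z‖ ≤ max ‖L5 u z k‖ ‖L5 u z l‖ := by
  have key : ∀ l : Fin 6, max ‖u‖ ‖z‖ ≤ max ‖z‖ ‖u - (u5 l : ℚ_[5]) * z‖ := by
    intro l
    refine max_le ?_ (le_max_left _ _)
    have h2 : u = (u - (u5 l : ℚ_[5]) * z) + (u5 l : ℚ_[5]) * z := by ring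
    calc ‖u‖ = ‖(u - (u5 l : ℚ_[5]) * z) + (u5 l : ℚ_[5]) * z‖ := by rw [← h2]
      _ ≤ max ‖u - (u5 l : ℚ_[5]) * z‖ ‖(u5 l : ℚ_[5]) * z‖ := Padic.nonarchimedean _ _
      _ ≤ max ‖z‖ ‖u - (u5 l : ℚ_[5]) * z‖ := by
        refine max_le (le_max_right _ _) ?_
        rw [norm_mul]
        exact (mul_le_of_le_one_left (norm_nonneg _) (Padic.norm_int_le_one _)).trans (le_max_left _ _)
  unfold L5
  by_cases hk : k = 0
  · have hl : l ≠ 0 := fun hl => h (hk.trans hl.symm)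
    rw [if_pos hk, if_neg hl]
    exact key l
  · by_cases hl : l = 0
    · rw [if_neg hk, if_pos hl, max_comm ‖u - (u5 k : ℚ_[5]) * z‖]
      exact key k
    · rw [if_neg hk, if_neg hl]
      exact forms_ge u z (u5 k) (u5 l) (by exact_mod_cast u5_dif k l hk hl h)

theorem c5_ne : ∀ k, c5 k ≠ 0 := by decide

theorem pv5 (N : ℤ) (j : ℕ) (h1 : (5 : ℤ) ^ j ∣ N) (h2 : ¬ (5 : ℤ) ^ (j + 1) ∣ N) : padicValInt 5 N = j := by
  have hN : N ≠ 0 := fun h => h2 (by rw [h]; exact dvd_zero _)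
  have a1 := ((padicValInt_dvd_iff (p := 5) j N).1 (by exact_mod_cast h1)).resolve_left hN
  have a2 : ¬ j + 1 ≤ padicValInt 5 N := fun h =>
    h2 (by exact_mod_cast (padicValInt_dvd_iff (p := 5) (j + 1) N).2 (Or.inr h))
  omega

theorem c5_sum : ∑ k, (padicValInt 5 (c5 k) : ℤ) = 5 := by
  rw [Fin.sum_univ_six]
  have h0 : padicValInt 5 (c5 0) = 1 := pv5 _ 1 (by decide) (by decide)
  have h1 : padicValInt 5 (c5 1) = 0 := pv5 _ 0 (by decide) (by decide)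
  have h2 : padicValInt 5 (c5 2) = 1 := pv5 _ 1 (by decide) (by decide)
  have h3 : padicValInt 5 (c5 3) = 1 := pv5 _ 1 (by decide) (by decide)
  have h4 : padicValInt 5 (c5 4) = 1 := pv5 _ 1 (by decide) (by decide)
  have h5 : padicValInt 5 (c5 5) = 1 := pv5 _ 1 (by decide) (by decide)
  rw [h0, h1, h2, h3, h4, h5]
  norm_num

/-- the prime 5 -/
theorem loc_five {n : Fin 6 → ℤ} {d m : ℤ} (hn : ∀ k, n k ≠ 0) (hd : d ≠ 0)
    (hdm : d * ∏ k, n k = m ^ 2) (hqd : padicValInt 5 d = 1) (hpt : Pt n ℚ_[5]) (k l : Fin 6) :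
    (2 : ℤ) ∣ padicValInt 5 (n k) + padicValInt 5 (n l) + padicValInt 5 (c5 k) +
      padicValInt 5 (c5 l) := by
  obtain ⟨x, w, hxw, hy⟩ := hpt
  choose y hy using hy
  have huz : w - x / 15 ≠ 0 ∨ x / 30 ≠ 0 := by
    by_contra hno
    rw [not_or, not_not, not_not] at hno
    obtain ⟨h1, h2⟩ := hno
    have hx : x = 0 := by
      have h30 : (30 : ℚ_[5]) ≠ 0 := by norm_num
      rcases div_eq_zero_iff.1 h2 with h3 | h3
      · exact h3
      · exact absurd h3 h30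
    rw [hx, zero_div, sub_zero] at h1
    exact hxw.elim (fun h => h hx) fun h => h h1
  obtain ⟨t, ht, hA⟩ := exists_big huz
  obtain ⟨i, hi⟩ := one_small (L := L5 (w - x / 15) (x / 30)) (A := ‖t‖)
    (fun k => by rw [hA]; exact L5_le _ _ k) (fun k l hkl => by rw [hA]; exact L5_ge _ _ k l hkl)
  obtain ⟨h1, h2⟩ := par (c := c5) ht hi hn c5_ne hd (y := y)
    (fun k => by rw [L5_eq]; exact hy k) hdm
  have h3 : ∀ k, (2 : ℤ) ∣ padicValInt 5 (n k) + padicValInt 5 (c5 k) + t.valuation := by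
    intro k
    by_cases hk : k = i
    · rw [hk]
      exact h2 (by rw [c5_sum, hqd]; norm_num)
    · exact h1 k hk
  have h4 := h3 k
  have h5 := h3 l
  omega

/-- the parity of the product -/
theorem c5_even : ∀ i k l : Fin 6, k ≠ i → l ≠ i → ∃ j : Fin 4,
    (5 : ℤ) ^ (2 * (j : ℕ)) ∣ (bp i - bp k) * (bp i - bp l) * (c5 k * c5 l) ∧
      ¬ (5 : ℤ) ^ (2 * (j : ℕ) + 1) ∣ (bp i - bp k) * (bp i - bp l) * (c5 k * c5 l) := by
  decide +kernel

/-- the form needed for `cls` -/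
theorem five_cls {n : Fin 6 → ℤ} {d m : ℤ} (hn : ∀ k, n k ≠ 0) (hd : d ≠ 0)
    (hdm : d * ∏ k, n k = m ^ 2) (hqd : padicValInt 5 d = 1) (hpt : Pt n ℚ_[5]) {i k l : Fin 6}
    (hk : k ≠ i) (hl : l ≠ i) {s m' : ℤ} (hm' : m' ≠ 0) (hs : n k * n l = s * m' ^ 2) :
    ∃ j : ℕ, (5 : ℤ) ^ (2 * j) ∣ s * ((bp i - bp k) * (bp i - bp l)) ∧
      ¬ (5 : ℤ) ^ (2 * j + 1) ∣ s * ((bp i - bp k) * (bp i - bp l)) := by
  have h1 := loc_five hn hd hdm hqd hpt k l
  obtain ⟨j, hj1, hj2⟩ := c5_even i k l hk hl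
  have h2 := pv5 _ _ hj1 hj2
  have hE : (bp i - bp k) * (bp i - bp l) ≠ 0 := by
    intro h
    rw [h, zero_mul] at hj2
    exact hj2 (dvd_zero _)
  have hs0 : s ≠ 0 := by
    rintro rfl
    rw [zero_mul] at hs
    exact mul_ne_zero (hn k) (hn l) hs
  have h3 : (padicValInt 5 ((bp i - bp k) * (bp i - bp l)) : ℤ) + (padicValInt 5 (c5 k) +
      padicValInt 5 (c5 l)) = 2 * (j : ℕ) := by
    rw [← pv_mul (c5_ne k) (c5_ne l), ← pv_mul hE (mul_ne_zero (c5_ne k) (c5_ne l)), h2]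
    push_cast
    ring
  have h4 : (padicValInt 5 (n k) : ℤ) + padicValInt 5 (n l) = padicValInt 5 s + 2 * padicValInt 5 m' := by
    rw [← pv_mul (hn k) (hn l), hs, pv_mul hs0 (pow_ne_zero 2 hm'), pow_two, pv_mul hm' hm']
    ring
  obtain ⟨v, hv⟩ : ∃ v, v = padicValInt 5 (s * ((bp i - bp k) * (bp i - bp l))) := ⟨_, rfl⟩
  have h5 : (v : ℤ) = padicValInt 5 s + padicValInt 5 ((bp i - bp k) * (bp i - bp l)) := by
    rw [hv, pv_mul hs0 hE]
  obtain ⟨r, hr⟩ : ∃ r : ℕ, v = 2 * r := ⟨v / 2, by omega⟩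
  refine ⟨r, ?_, ?_⟩
  · have := (padicValInt_dvd_iff (p := 5) (2 * r) (s * ((bp i - bp k) * (bp i - bp l)))).2
      (Or.inr (by rw [← hv, hr]))
    exact_mod_cast this
  · intro h
    have h6 := (padicValInt_dvd_iff (p := 5) (2 * r + 1) (s * ((bp i - bp k) * (bp i - bp l)))).1
      (by exact_mod_cast h)
    rcases h6 with h6 | h6
    · exact mul_ne_zero hs0 hE h6
    · rw [← hv, hr] at h6
      omega

end Pool.Agent.Zk94.BM
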