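import Mathlib
import Pool.Agent.Zk94.BM.Five
import Pool.Agent.Zk94.PT.Loc2

/-!
# The coverings of the twists by primes with points everywhere locally
-/

set_option autoImplicit false
set_option linter.all false

namespace Pool.Agent.Zk94.BM

open Finset Pool.Agent.Zk94.PT

theorem two_adic {n : Fin 6 → ℤ} {d m : ℤ} (hn : ∀ k, n k ≠ 0) (hd : d ≠ 0) (hm : m ≠ 0)
    (hdm : d * ∏ k, n k = m ^ 2) (hpt : Pt n ℚ_[2]) {S M' : Fin 6 → Fin 6 → ℤ}
    (hS : ∀ k l, n k * n l = S k l * M' k l ^ 2) :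
    (∃ x₀ : ℚ_[2], (∀ k l, ∃ b : ℚ_[2], (S k l : ℚ_[2]) * b ^ 2 = (x₀ - bp k) * (x₀ - bp l)) ∧
      ∃ b : ℚ_[2], (d : ℚ_[2]) * b ^ 2 = ∏ k, (x₀ - bp k)) ∨
    ((∀ k l, ∃ b : ℚ_[2], (S k l : ℚ_[2]) * b ^ 2 = 1) ∧ ∃ b : ℚ_[2], (d : ℚ_[2]) * b ^ 2 = 1) := by
  obtain ⟨x, w, hxw, hy⟩ := hpt
  choose y hy using hy
  have hS' : ∀ k l, (n k : ℚ_[2]) * n l = S k l * (M' k l : ℚ_[2]) ^ 2 := fun k l => by
    exact_mod_cast hS k l
  have hd' : (d : ℚ_[2]) ≠ 0 := Int.cast_ne_zero.2 hd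
  have hm' : (m : ℚ_[2]) ≠ 0 := Int.cast_ne_zero.2 hm
  have hdm' : (d : ℚ_[2]) * ∏ k, (n k : ℚ_[2]) = (m : ℚ_[2]) ^ 2 := by exact_mod_cast hdm
  have hprod : ∏ k, (x - (bp k : ℚ_[2]) * w) = (∏ k, (n k : ℚ_[2])) * (∏ k, y k) ^ 2 := by
    rw [← prod_pow, ← prod_mul_distrib]
    exact prod_congr rfl fun k _ => hy k
  by_cases hw : w = 0
  · right
    have hx : x ≠ 0 := hxw.resolve_right fun h => h hw
    have hyk : ∀ k, x = n k * y k ^ 2 := by
      intro k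
      have h1 := hy k
      rwa [hw, mul_zero, sub_zero] at h1
    have hy0 : ∀ k, y k ≠ 0 := by
      intro k h
      have h1 := hyk k
      rw [h, zero_pow two_ne_zero, mul_zero] at h1
      exact hx h1
    refine ⟨fun k l => ⟨M' k l * (y k * y l) / x, ?_⟩, ⟨x ^ 3 / (m * ∏ k, y k), ?_⟩⟩
    · have h1 : (S k l : ℚ_[2]) * (M' k l * (y k * y l)) ^ 2 = x ^ 2 := by
        calc (S k l : ℚ_[2]) * (M' k l * (y k * y l)) ^ 2 =
            (S k l * (M' k l : ℚ_[2]) ^ 2) * y k ^ 2 * y l ^ 2 := by ring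
          _ = (n k * y k ^ 2) * (n l * y l ^ 2) := by rw [← hS' k l]; ring
          _ = x ^ 2 := by rw [← hyk k, ← hyk l]; ring
      rw [div_pow, ← mul_div_assoc, h1, div_self (pow_ne_zero 2 hx)]
    · have hP : (∏ k, y k) ≠ 0 := prod_ne_zero_iff.2 fun k _ => hy0 k
      have h1 : x ^ 6 = (∏ k, (n k : ℚ_[2])) * (∏ k, y k) ^ 2 := by
        rw [← hprod, hw]
        simp
      have h2 : (d : ℚ_[2]) * x ^ 6 = (m * ∏ k, y k) ^ 2 := by
        rw [h1, ← mul_assoc, hdm', mul_pow]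
      rw [div_pow, ← mul_div_assoc, ← h2, ← pow_mul]
      exact div_self (mul_ne_zero hd' (pow_ne_zero _ hx))
  · left
    have hxk : ∀ k, x / w - (bp k : ℚ_[2]) = n k * y k ^ 2 / w := by
      intro k
      rw [← hy k]
      field_simp
    refine ⟨x / w, fun k l => ⟨M' k l * (y k * y l) / w, ?_⟩, ⟨m * (∏ k, y k) / (d * w ^ 3), ?_⟩⟩
    · rw [hxk k, hxk l]
      field_simp
      linear_combination (-(y k ^ 2 * y l ^ 2)) * hS' k l
    · have h1 : ∏ k, (x / w - (bp k : ℚ_[2])) = (∏ k, (n k : ℚ_[2])) * (∏ k, y k) ^ 2 / w ^ 6 := by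
        rw [← hprod]
        have h2 : ∀ k, x / w - (bp k : ℚ_[2]) = (x - (bp k : ℚ_[2]) * w) / w := fun k => by
          field_simp
        rw [prod_congr rfl fun k _ => h2 k, prod_div_distrib, prod_const, card_univ,
          Fintype.card_fin]
      rw [h1]
      have h3 : (∏ k, (n k : ℚ_[2])) = (m : ℚ_[2]) ^ 2 / d := by
        rw [← hdm']
        field_simp
      rw [h3]
      field_simp

theorem type_of_sel {p : ℕ} (hp : p.Prime) (h5 : 5 < p) {d m : ℤ} (hd : d ≠ 0)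
    (hdp : padicValInt p d = 1) (hd5 : padicValInt 5 d = 1)
    (hqd : ∀ q : ℕ, q.Prime → 5 < q → q ≠ p → ¬ (q : ℤ) ∣ d)
    {cs : List ℤ} {dd : ℤ} (hchk : Chk cs dd) (hdd : ∃ u : ℚ_[2], (dd : ℚ_[2]) * d = u ^ 2)
    (hres : ∀ c ∈ ([1, -1, 2, -2, 3, -3, 6, -6] : List ℤ), IsSquare (c : ZMod p) → c ∈ cs)
    {n : Fin 6 → ℤ} (hn : ∀ k, n k ≠ 0) (hdm : d * ∏ k, n k = m ^ 2)
    (hpt : ∀ (q : ℕ) [Fact q.Prime], Pt n ℚ_[q]) :
    ∃ i, ∀ k l, k ≠ i → l ≠ i → IsSquare (n k * n l * ((bp i - bp k) * (bp i - bp l))) := by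
  classical
  haveI : Fact p.Prime := ⟨hp⟩
  have hm : m ≠ 0 := by
    rintro rfl
    rw [zero_pow two_ne_zero] at hdm
    exact mul_ne_zero hd (prod_ne_zero_iff.2 fun k _ => hn k) hdm
  choose S M' hM' hS hSM using fun k l => sqf (mul_ne_zero (hn k) (hn l))
  obtain ⟨i, hi⟩ := loc_bad h5 hn hd hdm hdp (hpt p)
  refine ⟨i, ?_⟩
  have hbinj : Function.Injective bp := by decide
  have hcls : ∀ k l, k ≠ i → l ≠ i → ∃ c m : ℤ, m ≠ 0 ∧
      S k l * ((bp i - bp k) * (bp i - bp l)) = c * m ^ 2 ∧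
      c ∈ ([1, -1, 2, -2, 3, -3, 6, -6] : List ℤ) ∧ IsSquare (c : ZMod p) := by
    intro k l hk hl
    have hE0 : (bp i - bp k) * (bp i - bp l) ≠ 0 := mul_ne_zero
      (sub_ne_zero.2 fun h => hk (hbinj h.symm)) (sub_ne_zero.2 fun h => hl (hbinj h.symm))
    refine cls hp h5 (hS k l).ne_zero hE0 ?_ ?_ ?_
      ((hi k l hk hl).2 (S k l) (M' k l) (hM' k l) (hSM k l))
    · intro q hq hq5 h
      rcases (Nat.prime_iff_prime_int.1 hq).dvd_or_dvd h with h | h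
      · exact bp_dif q hq hq5 i k (Ne.symm hk) h
      · exact bp_dif q hq hq5 i l (Ne.symm hl) h
    · intro q hq hq5
      haveI : Fact q.Prime := ⟨hq⟩
      by_cases hqp : q = p
      · subst hqp
        exact not_dvd_of_even (hS k l) (hM' k l) (hSM k l) (hi k l hk hl).1
      · exact not_dvd_of_even (hS k l) (hM' k l) (hSM k l)
          (loc_good hq5 hn hd hdm (hqd q hq hq5 hqp) (hpt q) k l)
    · exact five_cls hn hd hdm hd5 (hpt 5) hk hl (hM' k l) (hSM k l)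
  choose! c m₁ hm₁ hcm hc8 hcsq using hcls
  have hconc := conc (i := i) (s := S) (c := c) (m := m₁) hchk hdd
    (fun k l hk hl => hres _ (hc8 k l hk hl) (hcsq k l hk hl)) hcm
    (two_adic hn hd hm hdm (hpt 2) hSM)
  intro k l hk hl
  refine ⟨m₁ k l * M' k l, ?_⟩
  have h1 := hcm k l hk hl
  rw [hconc k l hk hl, one_mul] at h1
  rw [hSM k l]
  linear_combination (M' k l) ^ 2 * h1

end Pool.Agent.Zk94.BM
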