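import Mathlib
import Pool.Agent.Zk94.BM.Sel
import Pool.Agent.Y488.TM.BM
import Pool.Agent.Y488.TM.FinB

/-!
# Adelic points of the twists by primes which are orthogonal to the quaternion classes
-/

set_option autoImplicit false
set_option linter.all false

namespace Pool.Agent.Zk94.BM

open Finset Polynomial Pool.Agent.Zk94.PT Pool.Agent.W313.BMX

/-- the linear factors -/
noncomputable def fx (k : Fin 6) : ℤ[X] := X - C (bp k)

theorem fx_deg (k : Fin 6) : (fx k).natDegree = 1 := natDegree_X_sub_C _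

theorem homog_fx (k : Fin 6) {R : Type} [CommRing R] (x w : R) :
    homog (fx k) x w = x - (bp k : R) * w := by
  unfold homog fx
  rw [natDegree_X_sub_C, sum_range_succ, sum_range_one, coeff_sub, coeff_sub, coeff_X_zero,
    coeff_X_one, coeff_C_zero, coeff_C_ne_zero one_ne_zero]
  push_cast
  simp only [pow_zero, pow_one, Nat.sub_zero, Nat.sub_self]
  ring

theorem hom_fx (k : Fin 6) {R : Type} [CommRing R] (x w : R) :
    Pool.Agent.W262.TW.hom (fx k) x w = x - (bp k : R) * w := by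
  unfold Pool.Agent.W262.TW.hom fx
  rw [natDegree_X_sub_C, sum_range_succ, sum_range_one, coeff_sub, coeff_sub, coeff_X_zero,
    coeff_X_one, coeff_C_zero, coeff_C_ne_zero one_ne_zero]
  push_cast
  simp only [pow_zero, pow_one, Nat.sub_zero, Nat.sub_self]
  ring

theorem fx_irr (k : Fin 6) : Irreducible ((fx k).map (Int.castRingHom ℚ)) := by
  unfold fx
  rw [Polynomial.map_sub, map_X, map_C]
  exact irreducible_X_sub_C _

theorem fx_ass (k l : Fin 6) (h : k ≠ l) :
    ¬ Associated ((fx k).map (Int.castRingHom ℚ)) ((fx l).map (Int.castRingHom ℚ)) := by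
  intro h1
  have h2 : (fx k).map (Int.castRingHom ℚ) = (fx l).map (Int.castRingHom ℚ) := by
    apply eq_of_monic_of_associated _ _ h1
    · exact (monic_X_sub_C _).map _
    · exact (monic_X_sub_C _).map _
  have h3 : fx k = fx l := map_injective _ (RingHom.injective_int _) h2
  unfold fx at h3
  have h4 : bp k = bp l := by
    have := congrArg (fun P : ℤ[X] => P.coeff 0) h3
    simpa using this
  have hinj : Function.Injective bp := by decide
  exact h (hinj h4)

/-- all classes from the classes of the other factors -/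
theorem cls_all {F : Type} [Field F] {n ω : Fin 6 → F} {d m : F} {i : Fin 6} (hn : ∀ k, n k ≠ 0)
    (hω : ∀ k, k ≠ i → ω k ≠ 0) (hdm : d * ∏ k, n k = m ^ 2)
    (hωi : ω i = d * ∏ k ∈ univ.erase i, ω k)
    (h : ∀ k l, k ≠ i → l ≠ i → IsSquare (n k * n l * (ω k * ω l))) :
    ∀ k l, IsSquare (n k * n l * (ω k * ω l)) := by
  classical
  have aux : ∀ l, l ≠ i → IsSquare (n i * n l * (ω i * ω l)) := by
    intro l hl
    obtain ⟨s, hs⟩ : ∃ s, s = (univ.erase i).erase l := ⟨_, rfl⟩
    have hsc : s.card = 4 := by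
      rw [hs, card_erase_of_mem (mem_erase.2 ⟨hl, mem_univ l⟩), card_erase_of_mem (mem_univ i),
        card_univ, Fintype.card_fin]
    have hsi : ∀ k ∈ s, k ≠ i := by
      intro k hk
      rw [hs] at hk
      exact ne_of_mem_erase (mem_of_mem_erase hk)
    have h0 : ∀ k, ∃ r, k ∈ s → n k * ω k * (n l * ω l) = r * r := by
      intro k
      by_cases hk : k ∈ s
      · obtain ⟨r, hr⟩ := h k l (hsi k hk) hl
        exact ⟨r, fun _ => by rw [← hr]; ring⟩
      · exact ⟨0, fun h => absurd h hk⟩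
    choose r hr using h0
    have h1 : d * (n i * (n l * ∏ k ∈ s, n k)) = m ^ 2 := by
      rw [← hdm, hs, mul_prod_erase _ n (mem_erase.2 ⟨hl, mem_univ l⟩),
        mul_prod_erase _ n (mem_univ i)]
    have h2 : ω i = d * (ω l * ∏ k ∈ s, ω k) := by
      rw [hωi, hs, mul_prod_erase _ ω (mem_erase.2 ⟨hl, mem_univ l⟩)]
    have h3 : (∏ k ∈ s, n k) * (∏ k ∈ s, ω k) * (n l * ω l) ^ 4 = (∏ k ∈ s, r k) ^ 2 := by
      rw [← hsc, ← prod_const, ← prod_mul_distrib, ← prod_mul_distrib, pow_two, ← prod_mul_distrib]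
      exact prod_congr rfl fun k hk => hr k hk
    have hPn : (∏ k ∈ s, n k) ≠ 0 := prod_ne_zero_iff.2 fun k _ => hn k
    have hnl : (n l * ω l) ≠ 0 := mul_ne_zero (hn l) (hω l hl)
    refine ⟨m * ω l * (∏ k ∈ s, r k) / ((∏ k ∈ s, n k) * (n l * ω l) ^ 2), ?_⟩
    rw [div_mul_div_comm, eq_div_iff (mul_ne_zero (mul_ne_zero hPn (pow_ne_zero 2 hnl))
      (mul_ne_zero hPn (pow_ne_zero 2 hnl))), h2]
    linear_combination (ω l ^ 2 * (∏ k ∈ s, n k) * (∏ k ∈ s, ω k) * (n l * ω l) ^ 4) * h1 +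
      m ^ 2 * ω l ^ 2 * h3
  intro k l
  by_cases hk : k = i
  · by_cases hl : l = i
    · rw [hk, hl]
      exact ⟨n i * ω i, by ring⟩
    · rw [hk]
      exact aux l hl
  · by_cases hl : l = i
    · rw [hl]
      obtain ⟨r, hr⟩ := aux k hk
      exact ⟨r, by rw [← hr]; ring⟩
    · exact h k l hk hl

/-- the rational Weierstrass point -/
noncomputable def wpt (d : ℤ) (i : Fin 6) (F : Type) [Field F] : Point fx d F where
  x := (bp i : F)
  w := 1
  y := 0
  ne := Or.inr one_ne_zero
  eq := by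
    rw [zero_pow two_ne_zero, mul_zero]
    refine (prod_eq_zero (mem_univ i) ?_).symm
    rw [homog_fx, mul_one, sub_self]

theorem value_w {d : ℤ} {i k : Fin 6} (F : Type) [Field F] [CharZero F] (h : k ≠ i) :
    value (wpt d i F) k = (bp i : F) - bp k := by
  have hbinj : Function.Injective bp := by decide
  have h1 : homog (fx k) (wpt d i F).x (wpt d i F).w = (bp i : F) - bp k := by
    rw [homog_fx]
    show (bp i : F) - (bp k : F) * 1 = _
    rw [mul_one]
  unfold value
  rw [if_pos, h1]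
  rw [h1, sub_ne_zero]
  intro h2
  exact h (hbinj (Int.cast_injective h2)).symm

theorem value_wi {d : ℤ} {i : Fin 6} (F : Type) [Field F] [CharZero F] :
    value (wpt d i F) i = (d : F) * ∏ k ∈ univ.erase i, value (wpt d i F) k := by
  have h1 : homog (fx i) (wpt d i F).x (wpt d i F).w = 0 := by
    rw [homog_fx]
    show (bp i : F) - (bp i : F) * 1 = _
    rw [mul_one, sub_self]
  have h2 : value (wpt d i F) i = (d : F) * ∏ k ∈ univ.erase i,
      homog (fx k) (wpt d i F).x (wpt d i F).w := by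
    unfold value
    rw [if_neg (by rw [not_not]; exact h1)]
  rw [h2]
  congr 1
  refine prod_congr rfl fun k hk => ?_
  rw [value_w F (ne_of_mem_erase hk), homog_fx]
  show (bp i : F) - (bp k : F) * 1 = _
  rw [mul_one]

/-- **the theorem for a twist** -/
theorem bm_type {p : ℕ} (hp : p.Prime) (h5 : 5 < p) {d : ℤ} (hd : d ≠ 0)
    (hdp : padicValInt p d = 1) (hd5 : padicValInt 5 d = 1)
    (hqd : ∀ q : ℕ, q.Prime → 5 < q → q ≠ p → ¬ (q : ℤ) ∣ d)
    {cs : List ℤ} {dd : ℤ} (hchk : Chk cs dd) (hdd : ∃ u : ℚ_[2], (dd : ℚ_[2]) * d = u ^ 2)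
    (hres : ∀ c ∈ ([1, -1, 2, -2, 3, -3, 6, -6] : List ℤ), IsSquare (c : ZMod p) → c ∈ cs)
    (P : AdelicPoint fx d) (hP : Pool.Agent.Y488.TM.OrthM P) :
    ∃ i, ∀ k l, IsSquare (value P.re k * value P.re l * (value (wpt d i ℝ) k * value (wpt d i ℝ) l)) ∧
      ∀ q : Nat.Primes, IsSquare (value (P.pa q) k * value (P.pa q) l *
        (value (wpt d i ℚ_[(q : ℕ)]) k * value (wpt d i ℚ_[(q : ℕ)]) l)) := by
  classical
  obtain ⟨n, hn, hsq, -, hpt, hT⟩ := Pool.Agent.Y488.TM.selM Pool.Agent.Y488.TM.finb fx fx_irr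
    (fun k l h => fx_ass k l h) (by simp only [fx_deg]; decide) ⟨0, by rw [fx_deg]; decide⟩ d hd P hP
  obtain ⟨m, hm⟩ := hsq
  have hdm : d * ∏ k, n k = m ^ 2 := by rw [hm]; ring
  have hpt' : ∀ (q : ℕ) [Fact q.Prime], Pt n ℚ_[q] := by
    intro q _
    obtain ⟨x, w, hxw, hy⟩ := hpt q
    refine ⟨x, w, hxw, fun k => ?_⟩
    obtain ⟨y, hy⟩ := hy k
    exact ⟨y, by rw [← hy, hom_fx]⟩
  obtain ⟨i, hi⟩ := type_of_sel hp h5 hd hdp hd5 hqd hchk hdd hres hn hdm hpt'
  refine ⟨i, fun k l => ?_⟩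
  -- the classes over a field
  have key : ∀ (F : Type) [Field F] [CharZero F] (v : Fin 6 → F),
      (∀ T : Finset (Fin 6), Even (∑ k ∈ T, (fx k).natDegree) → IsSquare (∏ k ∈ T, (v k * (n k : F)))) →
      IsSquare (v k * v l * (value (wpt d i F) k * value (wpt d i F) l)) := by
    intro F _ _ v hv
    have hnF : ∀ k, (n k : F) ≠ 0 := fun k => Int.cast_ne_zero.2 (hn k)
    by_cases hkl : k = l
    · rw [hkl]
      exact ⟨v l * value (wpt d i F) l, by ring⟩
    have h1 : IsSquare (v k * v l * ((n k : F) * n l)) := by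
      have h2 := hv {k, l} (by
        rw [sum_pair hkl, fx_deg, fx_deg]
        decide)
      rw [prod_pair hkl] at h2
      have e : v k * v l * ((n k : F) * n l) = v k * (n k : F) * (v l * (n l : F)) := by ring
      rw [e]
      exact h2
    have hbinj : Function.Injective bp := by decide
    have h3 := cls_all (n := fun k => (n k : F)) (ω := fun k => value (wpt d i F) k) (d := (d : F))
      (m := (m : F)) (i := i) hnF (fun k hk => by
        rw [value_w F hk, sub_ne_zero]
        intro h2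
        exact hk (hbinj (Int.cast_injective h2)).symm) (by exact_mod_cast congrArg (Int.cast : ℤ → F) hdm)
      (value_wi F) (fun k l hk hl => by
        obtain ⟨r, hr⟩ := hi k l hk hl
        refine ⟨(r : F), ?_⟩
        rw [value_w F hk, value_w F hl]
        exact_mod_cast congrArg (Int.cast : ℤ → F) hr) k l
    exact isSquare_div h1 (mul_ne_zero (hnF k) (hnF l)) h3
  exact ⟨key ℝ (fun k => value P.re k) fun T hTe => (hT T hTe).1,
    fun q => key ℚ_[(q : ℕ)] (fun k => value (P.pa q) k) fun T hTe => (hT T hTe).2 q⟩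

end Pool.Agent.Zk94.BM
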