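import Mathlib
import Pool.Agent.Zk94.BM.End
import Pool.Agent.Zk94.PT.End

/-!
# The data of the twists by primes
-/

set_option autoImplicit false
set_option linter.all false

namespace Pool.Agent.Zk94.BM

open Finset Polynomial Pool.Agent.Zk94.PT Pool.Agent.W313.BMX

theorem pv1 {p : ℕ} (hp : p.Prime) {c : ℤ} (hc : ¬ (p : ℤ) ∣ c) :
    padicValInt p ((p : ℤ) * c) = 1 := by
  haveI : Fact p.Prime := ⟨hp⟩
  have hc0 : c ≠ 0 := by rintro rfl; exact hc (dvd_zero _)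
  have hp0 : (p : ℤ) ≠ 0 := by exact_mod_cast hp.ne_zero
  rw [padicValInt.mul hp0 hc0, padicValInt.self hp.one_lt, padicValInt.eq_zero_of_not_dvd hc]

/-- the arithmetic data of a twist -/
def Data (d : ℤ) : Prop := ∃ (p : ℕ) (cs : List ℤ) (dd : ℤ), p.Prime ∧ 5 < p ∧ d ≠ 0 ∧
  padicValInt p d = 1 ∧ padicValInt 5 d = 1 ∧
  (∀ q : ℕ, q.Prime → 5 < q → q ≠ p → ¬ (q : ℤ) ∣ d) ∧ Chk cs dd ∧
  (∃ u : ℚ_[2], (dd : ℚ_[2]) * d = u ^ 2) ∧
  (∀ c ∈ ([1, -1, 2, -2, 3, -3, 6, -6] : List ℤ), IsSquare (c : ZMod p) → c ∈ cs)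

theorem data_of {p : ℕ} (hp : p.Prime) (h5 : 5 < p) {n : ℕ} (hn : 5 * n ∣ 30)
    {cs : List ℤ} {dd : ℤ} (hchk : Chk cs dd)
    (hdd : ∃ u : ℚ_[2], (dd : ℚ_[2]) * ((((5 * n) * p : ℕ) : ℤ) : ℚ_[2]) = u ^ 2)
    (hres : ∀ c ∈ ([1, -1, 2, -2, 3, -3, 6, -6] : List ℤ), IsSquare (c : ZMod p) → c ∈ cs) :
    Data (((5 * n) * p : ℕ) : ℤ) := by
  have hn5 : ¬ 5 ∣ n := by
    rintro ⟨m, rfl⟩
    have h1 : 25 ∣ 30 := dvd_trans ⟨m, by ring⟩ hn
    omega
  have hn0 : n ≠ 0 := by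
    rintro rfl
    exact hn5 (dvd_zero _)
  refine ⟨p, cs, dd, hp, h5, ?_, ?_, ?_, ?_, hchk, hdd, hres⟩
  · exact_mod_cast mul_ne_zero (mul_ne_zero (by norm_num) hn0) hp.ne_zero
  · have e : (((5 * n) * p : ℕ) : ℤ) = (p : ℤ) * ((5 * n : ℕ) : ℤ) := by push_cast; ring
    rw [e]
    refine pv1 hp fun h => ?_
    exact not_dvd_30 hp h5 ((Int.natCast_dvd_natCast.1 h).trans hn)
  · have e : (((5 * n) * p : ℕ) : ℤ) = ((5 : ℕ) : ℤ) * ((n * p : ℕ) : ℤ) := by push_cast; ring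
    rw [e]
    refine pv1 Nat.prime_five fun h => ?_
    rcases Nat.prime_five.dvd_mul.1 (Int.natCast_dvd_natCast.1 h) with h1 | h1
    · exact hn5 h1
    · have := (Nat.prime_dvd_prime_iff_eq Nat.prime_five hp).1 h1
      omega
  · intro q hq hq5 hqp h
    rcases hq.dvd_mul.1 (Int.natCast_dvd_natCast.1 h) with h2 | h2
    · exact not_dvd_30 hq hq5 (h2.trans hn)
    · exact hqp ((Nat.prime_dvd_prime_iff_eq hq hp).1 h2)

theorem data30 {p : ℕ} (hp : p.Prime) (h : p % 24 = 5 ∨ p % 24 = 11) (h5 : p ≠ 5) :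
    Data (30 * p) := by
  haveI : Fact p.Prime := ⟨hp⟩
  have h5' : 5 < p := by omega
  have e : (30 * p : ℤ) = (((5 * 6) * p : ℕ) : ℤ) := by push_cast; ring
  rw [e]
  rcases h with h | h
  · refine data_of hp h5' (by norm_num) chk5 ?_ (fun c hc hsq => res5 h5' h hc hsq)
    obtain ⟨u, hu⟩ := sq8 (n := 5 * p) (by omega)
    refine ⟨30 * u, ?_⟩
    push_cast at hu ⊢
    linear_combination 900 * hu
  · refine data_of hp h5' (by norm_num) chk11 ?_ (fun c hc hsq => res11 h5' h hc hsq)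
    obtain ⟨u, hu⟩ := sq8 (n := 3 * p) (by omega)
    refine ⟨30 * u, ?_⟩
    push_cast at hu ⊢
    linear_combination 900 * hu

theorem data15 {p : ℕ} (hp : p.Prime) (h : p % 24 = 7 ∨ p % 24 = 19) : Data (15 * p) := by
  haveI : Fact p.Prime := ⟨hp⟩
  have h5' : 5 < p := by omega
  have e : (15 * p : ℤ) = (((5 * 3) * p : ℕ) : ℤ) := by push_cast; ring
  rw [e]
  rcases h with h | h
  · refine data_of hp h5' (by norm_num) chk7 ?_ (fun c hc hsq => res7 h5' h hc hsq)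
    obtain ⟨u, hu⟩ := sq8 (n := 7 * p) (by omega)
    refine ⟨15 * u, ?_⟩
    push_cast at hu ⊢
    linear_combination 225 * hu
  · refine data_of hp h5' (by norm_num) chk19 ?_ (fun c hc hsq => res19 h5' h hc hsq)
    obtain ⟨u, hu⟩ := sq8 (n := 3 * p) (by omega)
    refine ⟨15 * u, ?_⟩
    push_cast at hu ⊢
    linear_combination 225 * hu

/-- the values at the rational Weierstrass point -/
theorem value_cast {d : ℤ} {i : Fin 6} (F : Type) [Field F] [CharZero F] (k : Fin 6) :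
    value (wpt d i F) k = ((value (wpt d i ℚ) k : ℚ) : F) := by
  have h1 : ∀ k, k ≠ i → value (wpt d i F) k = ((value (wpt d i ℚ) k : ℚ) : F) := by
    intro k hk
    rw [value_w F hk, value_w ℚ hk]
    push_cast
    rfl
  by_cases hk : k = i
  · rw [hk, value_wi, value_wi]
    push_cast
    congr 1
    exact prod_congr rfl fun l hl => h1 l (ne_of_mem_erase hl)
  · exact h1 k hk

/-- the two-coverings -/
theorem sel_main {d : ℤ} (h : Data d) (n : Fin 6 → ℤ) (hn : ∀ k, n k ≠ 0)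
    (hm : ∃ m : ℤ, d * ∏ k, n k = m ^ 2) (hpt : ∀ (q : ℕ) [Fact q.Prime], Pt n ℚ_[q]) :
    ∃ i, ∀ k l, k ≠ i → l ≠ i → IsSquare (n k * n l * ((bp i - bp k) * (bp i - bp l))) := by
  obtain ⟨p, cs, dd, hp, h5, hd, hdp, hd5, hqd, hchk, hdd, hres⟩ := h
  obtain ⟨m, hm⟩ := hm
  exact type_of_sel hp h5 hd hdp hd5 hqd hchk hdd hres hn hm hpt

/-- the adelic points -/
theorem bm_main {d : ℤ} (h : Data d) (P : AdelicPoint fx d)
    (hP : ∀ e : ℤ, e ≠ 0 → ∀ k l, k ≠ l → Even (ram (Pool.Agent.Y488.TM.values2 P k l) e).ncard) :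
    ∃ Q : Point fx d ℚ, Q.y = 0 ∧
      ∀ k l, IsSquare (value P.re k * value P.re l * ((value Q k * value Q l : ℚ) : ℝ)) ∧
        ∀ q : Nat.Primes, IsSquare (value (P.pa q) k * value (P.pa q) l *
          ((value Q k * value Q l : ℚ) : ℚ_[(q : ℕ)])) := by
  obtain ⟨p, cs, dd, hp, h5, hd, hdp, hd5, hqd, hchk, hdd, hres⟩ := h
  obtain ⟨i, hi⟩ := bm_type hp h5 hd hdp hd5 hqd hchk hdd hres P (fun e he => ⟨fun k hk => by
    rw [fx_deg] at hk
    exact absurd hk (by decide), fun k l hkl _ _ => hP e he k l hkl⟩)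
  refine ⟨wpt d i ℚ, rfl, fun k l => ⟨?_, fun q => ?_⟩⟩
  · rw [Rat.cast_mul, ← value_cast ℝ, ← value_cast ℝ]
    exact (hi k l).1
  · rw [Rat.cast_mul, ← value_cast ℚ_[(q : ℕ)], ← value_cast ℚ_[(q : ℕ)]]
    exact (hi k l).2 q

end Pool.Agent.Zk94.BM
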